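import Pool.Agent.H21.RFS

namespace Pool.Agent.Results.MP_92b5af_al.Yes

open Pool.Agent.H21.RFS

theorem result : ∃ (Γ : Type) (_ : Group Γ),
    (∀ g : Γ, g ≠ 1 → ∃ N : Subgroup Γ, ∃ _ : N.Normal, g ∉ N ∧ Finite (Γ ⧸ N)) ∧
    (∀ g : Γ, g ≠ 1 → ∃ N : Subgroup Γ, ∃ _ : N.Normal, g ∉ N ∧ Group.IsSolvable (Γ ⧸ N)) ∧
    ¬∀ g : Γ, g ≠ 1 → ∃ N : Subgroup Γ, ∃ _ : N.Normal, g ∉ N ∧ Finite (Γ ⧸ N) ∧ Group.IsSolvable (Γ ⧸ N) := by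
  refine ⟨G I0, inferInstance, rf res, rs sep, fun h => ?_⟩
  obtain ⟨g, hg⟩ := ntr (I := I0)
  obtain ⟨N, _, h1, _, h2⟩ := h g hg
  exact h1 (nfs dv N h2 ▸ Subgroup.mem_top g)

end Pool.Agent.Results.MP_92b5af_al.Yes
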